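import Pool.Agent.H98.CE.Targets

/-!
# MP_65efe8_pr, row CHN: chains are below the functional of the box
-/

set_option autoImplicit false

open MeasureTheory ProbabilityTheory Filter Topology Pool.Agent.H95 Pool.Agent.H95.Cop
open Pool.Agent.H98.CE

namespace Pool.Agent.H11.CEL

theorem pf_CHN (hGLF : T_GLF) (hPCB : T_PCB) (hPXS : T_PXS) (hPXC : T_PXC) : T_CHN := by
  intro K ℓ α κ hℓ hα hκ hHK n M G m i L hn hL hM x f hf
  have _ := hPCB
  obtain ⟨r, hr⟩ : ∃ r : ℕ → ℝ, r = fun g => lk α κ (g * n) := ⟨_, rfl⟩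
  have hr0 : ∀ d, 0 ≤ r d := fun d => by
    rw [hr]
    exact mul_nonneg hκ (Real.rpow_nonneg (Nat.cast_nonneg _) _)
  have hf1 : ∀ k, f k ≤ PX K ℓ x (k * n) ((k + 1) * n) (k * n) ((k + 1) * n) := by
    intro k
    have h1 := (hf k).2
    have h2 := ((hPXS K ℓ hℓ 0 0 0 0).1 x).2.2.2 n (k * n)
    rw [← mul_assoc, h2] at h1
    rwa [show (k + 1) * n = k * n + n by ring]
  have claim : ∀ (m i : ℕ) (L : List ℕ), L ∈ gl G m i → ∃ e, i ≤ e ∧ e ≤ i + m * (G + 1) ∧
      0 ≤ cw f r L ∧
      cw f r L ≤ PX K ℓ x (i * n) ((i + 1) * n) (e * n) ((e + 1) * n) := by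
    intro m
    induction m with
    | zero =>
      intro i L hL
      rw [gl, Finset.mem_singleton] at hL
      subst hL
      refine ⟨i, le_rfl, by omega, ?_, ?_⟩
      · rw [cw]
        exact (hf i).1
      · rw [cw]
        exact hf1 i
    | succ m ih =>
      intro i L hL
      rw [gl, Finset.mem_biUnion] at hL
      obtain ⟨g, hg, hL⟩ := hL
      rw [Finset.mem_image] at hL
      obtain ⟨L', hL', rfl⟩ := hL
      rw [Finset.mem_Ico] at hg
      obtain ⟨e, he1, he2, hc0, hc⟩ := ih (i + g) L' hL'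
      have hhead := ((hGLF G m (i + g)).2 L' hL').2.2.1
      obtain ⟨L'', rfl⟩ : ∃ L'', L' = (i + g) :: L'' := by
        cases L' with
        | nil => simp at hhead
        | cons a t =>
          rw [List.head?_cons, Option.some_inj] at hhead
          exact ⟨t, by rw [hhead]⟩
      have hm : (m + 1) * (G + 1) = m * (G + 1) + (G + 1) := by ring
      refine ⟨e, by omega, by omega, ?_, ?_⟩
      · rw [cw]
        exact mul_nonneg (mul_nonneg (hf i).1 (hr0 _)) hc0
      · rw [cw]
        have hP0 : ∀ a b c d, 0 ≤ PX K ℓ x a b c d := fun a b c d =>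
          ((hPXS K ℓ hℓ a b c d).1 x).1
        have e1 : (i + 2) * n ≤ (i + g) * n := Nat.mul_le_mul_right n (by omega)
        have e2 : (i + 2) * n = (i + 1) * n + n := by ring
        have e3 : (i + g) * n ≤ e * n := Nat.mul_le_mul_right n he1
        have e4 : (i + g + 1) * n = i * n + (i + g + 1 - i) * n := by
          rw [← Nat.add_mul]
          congr 1
          omega
        have key := hPXC K ℓ α κ hℓ hα hκ hHK x (i * n) ((i + 1) * n) (i * n) ((i + 1) * n)
          ((i + g) * n) ((i + g + 1) * n) (e * n) ((e + 1) * n) ((i + g + 1 - i) * n) le_rfl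
          (by omega) (by omega) e4.le
        refine le_trans ?_ key
        have hrr : r (i + g + 1 - i) = lk α κ ((i + g + 1 - i) * n) := by rw [hr]
        rw [hrr]
        have hl0 : 0 ≤ lk α κ ((i + g + 1 - i) * n) := hrr ▸ hr0 _
        exact mul_le_mul (mul_le_mul_of_nonneg_right (hf1 i) hl0) hc hc0
          (mul_nonneg (hP0 _ _ _ _) hl0)
  obtain ⟨e, he1, he2, hc0, hc⟩ := claim m i L hL
  rw [hr] at hc0 hc
  refine ⟨hc0, hc.trans ?_⟩
  unfold WB
  refine ((hPXS K ℓ hℓ _ _ _ _).1 x).2.2.1 _ _ _ _ (Nat.zero_le _) ?_ (Nat.zero_le _) ?_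
  · exact Nat.mul_le_mul_right n (by omega)
  · exact Nat.mul_le_mul_right n (by omega)

end Pool.Agent.H11.CEL
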