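import Pool.Agent.H98.CE.Targets
import Pool.Agent.H55.CG.Targets

/-!
# MP_65efe8_pr, row DRB: excursions above after a block
-/

set_option autoImplicit false

open MeasureTheory ProbabilityTheory Filter Topology Pool.Agent.H95 Pool.Agent.H95.Cop
open Pool.Agent.H98.CE Pool.Agent.H55.CG

namespace Pool.Agent.H11.CEL

theorem drb_lk_nonneg {α κ : ℝ} (hκ : 0 ≤ κ) (d : ℕ) : 0 ≤ lk α κ d :=
  mul_nonneg hκ (Real.rpow_nonneg (Nat.cast_nonneg d) _)

theorem drb_lk_anti {α κ : ℝ} (hα : 0 < α) (hκ : 0 ≤ κ) {d1 d2 : ℕ} (h1 : 1 ≤ d1)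
    (h12 : d1 ≤ d2) : lk α κ d2 ≤ lk α κ d1 := by
  unfold lk
  refine mul_le_mul_of_nonneg_left ?_ hκ
  refine Real.rpow_le_rpow_of_nonpos ?_ ?_ (by linarith)
  · exact_mod_cast h1
  · exact_mod_cast h12

theorem drb_sum_le {β : Type} (s t : Finset β) (f : β → ℝ) (h0 : ∀ x, 0 ≤ f x)
    (h : ∀ x ∈ s, f x ≠ 0 → x ∈ t) : ∑ x ∈ s, f x ≤ ∑ x ∈ t, f x := by
  classical
  rw [← Finset.sum_filter_ne_zero s]
  exact Finset.sum_le_sum_of_subset_of_nonneg
    (fun x hx => h x (Finset.mem_filter.1 hx).1 (Finset.mem_filter.1 hx).2) (fun x _ _ => h0 x)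

theorem drb_sf_nonneg (hPCB : T_PCB) (K : PMF ℕ) (ℓ : ℕ) (hℓ : 1 ≤ ℓ) {α κ : ℝ} (hκ : 0 ≤ κ)
    (n glo ghi : ℕ) : ∀ (k : ℕ) (x : ℕ → ℝ), 0 ≤ sf K ℓ α κ n glo ghi k x := by
  intro k
  induction k with
  | zero => intro x; simp [sf]
  | succ k ih =>
    intro x
    rw [sf]
    refine add_nonneg zero_le_one (Finset.sum_nonneg fun s _ => ?_)
    refine mul_nonneg (drb_lk_nonneg hκ _) (mul_nonneg ?_ (ih _))
    exact le_min zero_le_one (((hPCB K ℓ hℓ).2 s s).1 x 0).1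

/-- one jump -/
theorem drb_jump (hPCB : T_PCB) (hCMP : T_CMP) (K : PMF ℕ) (ℓ : ℕ) (α κ : ℝ) (hℓ : 1 ≤ ℓ)
    (hα : 0 < α) (hκ : 0 ≤ κ) (hHK : HK K ℓ α κ) (n glo ghi : ℕ) (hglo : 2 ≤ glo) (x : ℕ → ℝ)
    (t n' a' b' : ℕ) (hn' : 1 ≤ n') (hn : n' ≤ n) (ha' : a' < t + n') (hb' : t + n' ≤ b') :
    ∑ u ∈ Finset.Ico t (t + n'), ∑ s ∈ Finset.Ico glo ghi,
      pc K ℓ x a' u * lk α κ (s + n + 1) * pc K ℓ x (t + n' + s) b' ≤ pc K ℓ x a' b' := by
  have hp : ∀ a b, 0 ≤ pc K ℓ x a b := fun a b => (((hPCB K ℓ hℓ).2 a b).1 x 0).1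
  have hz : ∀ a b, b < a → pc K ℓ x a b = 0 := fun a b => (((hPCB K ℓ hℓ).2 a b).1 x 0).2.2
  obtain ⟨f, hf⟩ : ∃ f : ℕ → ℕ → ℝ, f = fun u v =>
    if u + 2 ≤ v then pc K ℓ x a' u * lk α κ (v + 1 - u) * pc K ℓ x v b' else 0 := ⟨_, rfl⟩
  have hf0 : ∀ u v, 0 ≤ f u v := by
    intro u v
    rw [hf]
    simp only
    split_ifs
    · exact mul_nonneg (mul_nonneg (hp _ _) (drb_lk_nonneg hκ _)) (hp _ _)
    · exact le_rfl
  have h1 := hCMP K ℓ α κ hℓ hα hκ hHK x a' b' (t + n') ha' hb'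
  have h2 : ∑ u ∈ Finset.Ico t (t + n'), ∑ s ∈ Finset.Ico glo ghi,
      pc K ℓ x a' u * lk α κ (s + n + 1) * pc K ℓ x (t + n' + s) b' ≤
      ∑ u ∈ Finset.Ico t (t + n'), ∑ v ∈ Finset.Ico (t + n' + glo) (t + n' + ghi), f u v := by
    refine Finset.sum_le_sum fun u hu => ?_
    rw [show t + n' + glo = glo + (t + n') from add_comm _ _,
      show t + n' + ghi = ghi + (t + n') from add_comm _ _, ← Finset.sum_Ico_add (f u)]
    refine Finset.sum_le_sum fun s hs => ?_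
    rw [Finset.mem_Ico] at hu hs
    rw [hf]
    simp only
    rw [if_pos (by omega)]
    refine mul_le_mul_of_nonneg_right (mul_le_mul_of_nonneg_left ?_ (hp _ _)) (hp _ _)
    exact drb_lk_anti hα hκ (by omega) (by omega)
  have h3 : ∑ u ∈ Finset.Ico t (t + n'), ∑ v ∈ Finset.Ico (t + n' + glo) (t + n' + ghi), f u v ≤
      ∑ u ∈ Finset.Ico t (t + n'), ∑ v ∈ Finset.Icc (t + n') b', f u v := by
    refine Finset.sum_le_sum fun u _ => drb_sum_le _ _ _ (hf0 u) fun v hv hne => ?_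
    rw [Finset.mem_Ico] at hv
    rw [Finset.mem_Icc]
    refine ⟨by omega, ?_⟩
    by_contra hcon
    apply hne
    rw [hf]
    simp only
    rw [hz v b' (by omega), mul_zero, ite_self]
  have h4 : ∑ u ∈ Finset.Ico t (t + n'), ∑ v ∈ Finset.Icc (t + n') b', f u v ≤
      ∑ u ∈ Finset.Ico a' (t + n'), ∑ v ∈ Finset.Icc (t + n') b', f u v := by
    refine drb_sum_le _ _ _ (fun u => Finset.sum_nonneg fun v _ => hf0 u v) fun u hu hne => ?_
    rw [Finset.mem_Ico] at hu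
    rw [Finset.mem_Ico]
    refine ⟨?_, hu.2⟩
    by_contra hcon
    apply hne
    refine Finset.sum_eq_zero fun v _ => ?_
    rw [hf]
    simp only
    rw [hz a' u (by omega), zero_mul, zero_mul, ite_self]
  refine h2.trans (h3.trans (h4.trans ?_))
  rw [hf]
  exact h1

theorem pf_DRB (hPCB : T_PCB) (hPXS : T_PXS) (hCMP : T_CMP) : T_DRB := by
  intro K ℓ α κ hℓ hα hκ hHK n glo ghi hglo x k
  have hp : ∀ a b, 0 ≤ pc K ℓ x a b := fun a b => (((hPCB K ℓ hℓ).2 a b).1 x 0).1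
  induction k with
  | zero =>
    intro t n' a b _ _ _
    rw [sf, mul_one, zero_mul, add_zero]
  | succ k ih =>
    intro t n' a b hn' hn hb
    obtain ⟨R, hR⟩ : ∃ R, R = t + n' + (k + 1) * (ghi + 1) := ⟨_, rfl⟩
    have hR2 : (k + 1) * (ghi + 1) = k * (ghi + 1) + (ghi + 1) := by ring
    rw [sf, ← hR, mul_add, mul_one]
    have hstep : ∀ s ∈ Finset.Ico glo ghi, lk α κ (s + n + 1) *
        (Pool.Agent.H98.CE.qq K ℓ (shift ((t + n') * ℓ) x) s * sf K ℓ α κ n glo ghi k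
          (shift ((s + 1) * ℓ) (shift ((t + n') * ℓ) x))) ≤
        lk α κ (s + n + 1) * ∑ b' ∈ Finset.Ico (t + n') R, pc K ℓ x (t + n' + s) b' := by
      intro s hs
      rw [Finset.mem_Ico] at hs
      refine mul_le_mul_of_nonneg_left ?_ (drb_lk_nonneg hκ _)
      have e1 : Pool.Agent.H98.CE.qq K ℓ (shift ((t + n') * ℓ) x) s ≤ pc K ℓ x (t + n' + s) (t + n' + s) := by
        unfold Pool.Agent.H98.CE.qq
        refine (min_le_right _ _).trans (le_of_eq ?_)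
        rw [(((hPCB K ℓ hℓ).2 s s).1 x (t + n')).2.1, add_comm s]
      have e2 : shift ((s + 1) * ℓ) (shift ((t + n') * ℓ) x) =
          shift ((t + n' + s + 1) * ℓ) x := by
        rw [shift_shift]
        congr 1
        ring
      rw [e2]
      have e3 := ih (t + n' + s) 1 (t + n' + s) (t + n' + s + 1) le_rfl (by omega) le_rfl
      have e4 : PX K ℓ x (t + n' + s) (t + n' + s + 1) (t + n' + s) (t + n' + s + 1) =
          pc K ℓ x (t + n' + s) (t + n' + s) := by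
        unfold PX
        rw [Nat.Ico_succ_singleton, Finset.sum_singleton, Finset.sum_singleton]
      have e5 : PX K ℓ x (t + n' + s) (t + n' + s + 1) (t + n' + s)
          (t + n' + s + 1 + k * (ghi + 1)) ≤
          ∑ b' ∈ Finset.Ico (t + n') R, pc K ℓ x (t + n' + s) b' := by
        unfold PX
        rw [Nat.Ico_succ_singleton, Finset.sum_singleton]
        refine Finset.sum_le_sum_of_subset_of_nonneg ?_ fun _ _ _ => hp _ _
        exact Finset.Ico_subset_Ico (by omega) (by omega)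
      rw [e4] at e3
      exact (mul_le_mul_of_nonneg_right e1 (drb_sf_nonneg hPCB K ℓ hℓ hκ n glo ghi k _)).trans
        (e3.trans e5)
    have hPX0 : 0 ≤ PX K ℓ x a b t (t + n') :=
      ((hPXS K ℓ hℓ a b t (t + n')).1 x).1
    have h6 : PX K ℓ x a b t (t + n') * ∑ s ∈ Finset.Ico glo ghi, lk α κ (s + n + 1) *
        (Pool.Agent.H98.CE.qq K ℓ (shift ((t + n') * ℓ) x) s * sf K ℓ α κ n glo ghi k
          (shift ((s + 1) * ℓ) (shift ((t + n') * ℓ) x))) ≤
        PX K ℓ x a b t (t + n') * ∑ s ∈ Finset.Ico glo ghi, lk α κ (s + n + 1) *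
          ∑ b' ∈ Finset.Ico (t + n') R, pc K ℓ x (t + n' + s) b' :=
      mul_le_mul_of_nonneg_left (Finset.sum_le_sum hstep) hPX0
    have h7 : PX K ℓ x a b t (t + n') * ∑ s ∈ Finset.Ico glo ghi, lk α κ (s + n + 1) *
          ∑ b' ∈ Finset.Ico (t + n') R, pc K ℓ x (t + n' + s) b' =
        ∑ a' ∈ Finset.Ico a b, ∑ b' ∈ Finset.Ico (t + n') R,
          ∑ u ∈ Finset.Ico t (t + n'), ∑ s ∈ Finset.Ico glo ghi,
            pc K ℓ x a' u * lk α κ (s + n + 1) * pc K ℓ x (t + n' + s) b' := by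
      unfold PX
      rw [Finset.sum_mul]
      refine Finset.sum_congr rfl fun a' _ => ?_
      rw [Finset.sum_mul, Finset.sum_comm]
      refine Finset.sum_congr rfl fun u _ => ?_
      rw [Finset.sum_comm, Finset.mul_sum]
      refine Finset.sum_congr rfl fun s _ => ?_
      rw [Finset.mul_sum, Finset.mul_sum]
      refine Finset.sum_congr rfl fun b' _ => ?_
      ring
    have h8 : ∑ a' ∈ Finset.Ico a b, ∑ b' ∈ Finset.Ico (t + n') R,
          ∑ u ∈ Finset.Ico t (t + n'), ∑ s ∈ Finset.Ico glo ghi,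
            pc K ℓ x a' u * lk α κ (s + n + 1) * pc K ℓ x (t + n' + s) b' ≤
        PX K ℓ x a b (t + n') R := by
      unfold PX
      refine Finset.sum_le_sum fun a' ha' => Finset.sum_le_sum fun b' hb' => ?_
      rw [Finset.mem_Ico] at ha' hb'
      exact drb_jump hPCB hCMP K ℓ α κ hℓ hα hκ hHK n glo ghi hglo x t n' a' b' hn' hn
        (by omega) hb'.1
    have h9 : PX K ℓ x a b t (t + n') + PX K ℓ x a b (t + n') R = PX K ℓ x a b t R := by
      unfold PX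
      rw [← Finset.sum_add_distrib]
      refine Finset.sum_congr rfl fun a' _ => ?_
      exact Finset.sum_Ico_consecutive _ (by omega) (by omega)
    rw [← h9]
    exact add_le_add le_rfl (h6.trans (h7.le.trans h8))

end Pool.Agent.H11.CEL
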