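import Pool.Agent.H98.CE.Targets
import Pool.Agent.H55.CG.Targets

/-!
# MP_65efe8_pr, row PCB: the pair functional of cells
-/

set_option autoImplicit false

open MeasureTheory ProbabilityTheory Filter Topology Pool.Agent.H95 Pool.Agent.H95.Cop
open Pool.Agent.H98.CE Pool.Agent.H55.CG

namespace Pool.Agent.H11.CEL

theorem VV_pos (K : PMF ℕ) (ℓ : ℕ) (hℓ : 1 ≤ ℓ) : 0 < VV K ℓ := by
  have hk : ∀ n, 0 ≤ kk K n := fun n => ENNReal.toReal_nonneg
  have hu : ∀ n, 0 ≤ uu (kk K) n := fun n => uu_nonneg (kk K) hk n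
  unfold VV
  refine lt_of_lt_of_le one_pos ?_
  have h0 : (0 : ℕ) ∈ Finset.range ℓ := Finset.mem_range.mpr hℓ
  have h1 : (0 : ℕ) ∈ Finset.Ico 0 ℓ := Finset.mem_Ico.mpr ⟨le_rfl, hℓ⟩
  have h2 : (1 : ℝ) = uu (kk K) (0 - 0) := by rw [Nat.sub_zero, uu_zero]
  rw [h2]
  refine le_trans ?_ (Finset.single_le_sum (f := fun y => ∑ z ∈ Finset.Ico y ℓ,
    uu (kk K) (z - y)) (fun y _ => Finset.sum_nonneg fun z _ => hu _) h0)
  exact Finset.single_le_sum (f := fun z => uu (kk K) (z - 0)) (fun z _ => hu _) h1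

theorem pf_PCB (hPZS : Pool.Agent.H55.CG.T_PZS) (hPZM : Pool.Agent.H55.CG.T_PZM) : T_PCB := by
  intro K ℓ hℓ
  have hV := VV_pos K ℓ hℓ
  refine ⟨hV, fun a b => ⟨fun x t => ⟨?_, ?_, ?_⟩, ?_, ?_⟩⟩
  · unfold pc
    refine div_nonneg (Finset.sum_nonneg fun y _ => Finset.sum_nonneg fun z _ => ?_) hV.le
    split_ifs
    · exact (hPZS K x y (z - y) 0).2.2.1
    · exact le_rfl
  · unfold pc
    congr 1
    have e1 : (a + t) * ℓ = a * ℓ + t * ℓ := by ring
    have e2 : (a + t + 1) * ℓ = (a + 1) * ℓ + t * ℓ := by ring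
    have e3 : (b + t) * ℓ = b * ℓ + t * ℓ := by ring
    have e4 : (b + t + 1) * ℓ = (b + 1) * ℓ + t * ℓ := by ring
    rw [e1, e2, e3, e4, ← Finset.sum_Ico_add' (fun y => ∑ z ∈ Finset.Ico (b * ℓ + t * ℓ)
      ((b + 1) * ℓ + t * ℓ), if y ≤ z then pz K x (z - y) y else 0)]
    refine Finset.sum_congr rfl fun y _ => ?_
    rw [← Finset.sum_Ico_add' (fun z => if y + t * ℓ ≤ z then pz K x (z - (y + t * ℓ))
      (y + t * ℓ) else 0)]
    refine Finset.sum_congr rfl fun z _ => ?_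
    by_cases h : y ≤ z
    · rw [if_pos h, if_pos (Nat.add_le_add_right h _), (hPZS K x y (z - y) (t * ℓ)).2.2.2,
        Nat.add_sub_add_right]
    · rw [if_neg h, if_neg (fun h' => h (Nat.le_of_add_le_add_right h'))]
  · intro hab
    unfold pc
    have h0 : ∑ y ∈ Finset.Ico (a * ℓ) ((a + 1) * ℓ), ∑ z ∈ Finset.Ico (b * ℓ) ((b + 1) * ℓ),
        (if y ≤ z then pz K x (z - y) y else 0) = 0 := by
      refine Finset.sum_eq_zero fun y hy => Finset.sum_eq_zero fun z hz => ?_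
      rw [Finset.mem_Ico] at hy hz
      have h1 : (b + 1) * ℓ ≤ a * ℓ := Nat.mul_le_mul_right ℓ hab
      rw [if_neg (by omega)]
    rw [h0, zero_div]
  · unfold pc
    refine Measurable.div_const (Finset.measurable_fun_sum _ fun y _ =>
      Finset.measurable_fun_sum _ fun z _ => ?_) _
    by_cases h : y ≤ z
    · simp only [if_pos h]
      exact (hPZM K (z - y) y).1
    · simp only [if_neg h]
      exact measurable_const
  · intro x x' hx
    simp only [pc]
    congr 1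
    refine Finset.sum_congr rfl fun y _ => Finset.sum_congr rfl fun z hz => ?_
    rw [Finset.mem_Ico] at hz
    by_cases h : y ≤ z
    · rw [if_pos h, if_pos h]
      exact (hPZM K (z - y) y).2 x x' fun i hi => hx i (by omega)
    · rw [if_neg h, if_neg h]

end Pool.Agent.H11.CEL
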