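import Pool.Agent.H98.CE.Targets

/-!
# MP_65efe8_pr, row PXS: the functional of intervals of cells
-/

set_option autoImplicit false

open MeasureTheory ProbabilityTheory Filter Topology Pool.Agent.H95 Pool.Agent.H95.Cop
open Pool.Agent.H98.CE

namespace Pool.Agent.H11.CEL

theorem pf_PXS (hPCB : T_PCB) : T_PXS := by
  intro K ℓ hℓ a b c d
  have hpc := (hPCB K ℓ hℓ).2
  have hp0 : ∀ (x : ℕ → ℝ) (u v : ℕ), 0 ≤ pc K ℓ x u v := fun x u v => ((hpc u v).1 x 0).1
  have hsh : ∀ (x : ℕ → ℝ) (a b c d t : ℕ), PX K ℓ (shift (t * ℓ) x) a b c d =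
      PX K ℓ x (a + t) (b + t) (c + t) (d + t) := by
    intro x a b c d t
    unfold PX
    rw [← Finset.sum_Ico_add' (fun u => ∑ v ∈ Finset.Ico (c + t) (d + t), pc K ℓ x u v) a b t]
    refine Finset.sum_congr rfl fun u _ => ?_
    rw [← Finset.sum_Ico_add' (fun v => pc K ℓ x (u + t) v) c d t]
    exact Finset.sum_congr rfl fun v _ => ((hpc u v).1 x t).2.1
  refine ⟨fun x => ⟨?_, hsh x a b c d, ?_, ?_⟩, ?_, ?_⟩
  · exact Finset.sum_nonneg fun u _ => Finset.sum_nonneg fun v _ => hp0 x u v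
  · intro a' b' c' d' ha hb hc hd
    unfold PX
    calc ∑ u ∈ Finset.Ico a b, ∑ v ∈ Finset.Ico c d, pc K ℓ x u v
        ≤ ∑ u ∈ Finset.Ico a b, ∑ v ∈ Finset.Ico c' d', pc K ℓ x u v :=
          Finset.sum_le_sum fun u _ => Finset.sum_le_sum_of_subset_of_nonneg
            (Finset.Ico_subset_Ico hc hd) fun v _ _ => hp0 x u v
      _ ≤ ∑ u ∈ Finset.Ico a' b', ∑ v ∈ Finset.Ico c' d', pc K ℓ x u v :=
          Finset.sum_le_sum_of_subset_of_nonneg (Finset.Ico_subset_Ico ha hb) fun u _ _ =>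
            Finset.sum_nonneg fun v _ => hp0 x u v
  · intro n t
    unfold WB
    rw [hsh, Nat.zero_add, Nat.add_comm n t]
  · unfold PX
    exact Finset.measurable_fun_sum _ fun u _ => Finset.measurable_fun_sum _ fun v _ =>
      (hpc u v).2.1
  · intro x x' hx
    simp only [PX]
    refine Finset.sum_congr rfl fun u _ => Finset.sum_congr rfl fun v hv => ?_
    rw [Finset.mem_Ico] at hv
    refine (hpc u v).2.2 x x' fun i hi => hx i (lt_of_lt_of_le hi ?_)
    exact Nat.mul_le_mul_right ℓ hv.2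

end Pool.Agent.H11.CEL
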