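import Pool.Agent.H98.CE.Targets
import Pool.Agent.H55.CG.Targets

/-!
# MP_65efe8_pr, row SLM: the functional of a single cell is nearly one
-/

set_option autoImplicit false

open MeasureTheory ProbabilityTheory Filter Topology Pool.Agent.H95 Pool.Agent.H95.Cop
open Pool.Agent.H98.CE Pool.Agent.H55.CG

namespace Pool.Agent.H11.CEL

theorem slm_f_le {r : ℝ} (hr : 0 < r) (h : ℝ) :
    1 - r - (Real.exp h + Real.exp (-h) - 2) / (4 * r) ≤ 1 ∧
    1 - r - (Real.exp h + Real.exp (-h) - 2) / (4 * r) ≤ Real.exp h := by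
  have h1 : h ^ 2 ≤ Real.exp h + Real.exp (-h) - 2 := by
    have a1 : Real.exp h = Real.exp (h / 2) ^ 2 := by
      rw [← Real.exp_nat_mul]
      congr 1
      push_cast
      ring
    have a2 : Real.exp (-h) = Real.exp (-(h / 2)) ^ 2 := by
      rw [← Real.exp_nat_mul]
      congr 1
      push_cast
      ring
    have a3 : Real.exp (h / 2) * Real.exp (-(h / 2)) = 1 := by
      rw [← Real.exp_add, add_neg_cancel, Real.exp_zero]
    have e : Real.exp h + Real.exp (-h) - 2 = 4 * Real.sinh (h / 2) ^ 2 := by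
      rw [Real.sinh_eq, a1, a2]
      linear_combination 2 * a3
    have e2 : (h / 2) ^ 2 ≤ Real.sinh (h / 2) ^ 2 := by
      rcases le_total 0 (h / 2) with h0 | h0
      · have := Real.self_le_sinh_iff.mpr h0
        nlinarith
      · have := Real.sinh_le_self_iff.mpr h0
        nlinarith
    rw [e]
    nlinarith
  have h2 : 0 ≤ (Real.exp h + Real.exp (-h) - 2) / (4 * r) :=
    div_nonneg (le_trans (sq_nonneg h) h1) (by positivity)
  have h3 : h ^ 2 / (4 * r) ≤ (Real.exp h + Real.exp (-h) - 2) / (4 * r) :=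
    div_le_div_of_nonneg_right h1 (by positivity)
  have h4 : -h ≤ r + h ^ 2 / (4 * r) := by
    have : -h - r ≤ h ^ 2 / (4 * r) := by
      rw [le_div_iff₀ (by positivity)]
      nlinarith [sq_nonneg (2 * r + h)]
    linarith
  have h5 := Real.add_one_le_exp h
  exact ⟨by linarith, by linarith⟩

theorem slm_Mo_nonneg (ν : Measure ℝ) (s : ℝ) : 0 ≤ Mo ν s :=
  integral_nonneg fun _ => (Real.exp_pos _).le

theorem slm_exp (hPRE : Pool.Agent.H55.CG.T_PRE) (ν : Measure ℝ) [IsProbabilityMeasure ν]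
    (hexp : ∀ t : ℝ, Integrable (fun z => Real.exp (t * z)) ν) (s : ℝ) {y z : ℕ} (hyz : y ≤ z) :
    Integrable (fun x : ℕ → ℝ => Real.exp (s * H x y z)) (iid ν) ∧
    ∫ x : ℕ → ℝ, Real.exp (s * H x y z) ∂(iid ν) = Mo ν s ^ (z - y) := by
  have h := hPRE ν hexp (fun i => if y ≤ i then s else 0) z
  have e1 : ∀ x : ℕ → ℝ, ∑ i ∈ Finset.range z, (if y ≤ i then s else 0) * x i = s * H x y z := by
    intro x
    unfold H
    rw [Finset.mul_sum, Finset.range_eq_Ico, ← Finset.sum_Ico_consecutive _ (Nat.zero_le y) hyz]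
    have e2 : ∑ i ∈ Finset.Ico 0 y, (if y ≤ i then s else 0) * x i = 0 := by
      refine Finset.sum_eq_zero fun i hi => ?_
      rw [Finset.mem_Ico] at hi
      rw [if_neg (by omega), zero_mul]
    rw [e2, zero_add]
    refine Finset.sum_congr rfl fun i hi => ?_
    rw [Finset.mem_Ico] at hi
    rw [if_pos hi.1]
  have e3 : ∏ i ∈ Finset.range z, Mo ν (if y ≤ i then s else 0) = Mo ν s ^ (z - y) := by
    rw [Finset.range_eq_Ico, ← Finset.prod_Ico_consecutive _ (Nat.zero_le y) hyz]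
    have e2 : ∏ i ∈ Finset.Ico 0 y, Mo ν (if y ≤ i then s else 0) = 1 := by
      refine Finset.prod_eq_one fun i hi => ?_
      rw [Finset.mem_Ico] at hi
      rw [if_neg (by omega)]
      unfold Mo
      simp
    rw [e2, one_mul]
    have e4 : ∀ i ∈ Finset.Ico y z, Mo ν (if y ≤ i then s else 0) = Mo ν s := by
      intro i hi
      rw [Finset.mem_Ico] at hi
      rw [if_pos hi.1]
    rw [Finset.prod_congr rfl e4, Finset.prod_const, Nat.card_Ico]
  simp only [e1] at h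
  rw [e3] at h
  exact h

theorem pf_SLM (hPZU : Pool.Agent.H55.CG.T_PZU) (hPRE : Pool.Agent.H55.CG.T_PRE)
    (hPCB : T_PCB) : T_SLM := by
  intro K ν _ hexp ℓ ϑ hℓ hϑ hϑ2 hM1 hM2
  obtain ⟨hV, hpc⟩ := hPCB K ℓ hℓ
  have hp0 : ∀ x, 0 ≤ pc K ℓ x 0 0 := fun x => ((hpc 0 0).1 x 0).1
  have hmeas : Measurable (fun x : ℕ → ℝ => pc K ℓ x 0 0) := (hpc 0 0).2.1
  have hk : ∀ n, 0 ≤ kk K n := fun n => ENNReal.toReal_nonneg
  have hu : ∀ n, 0 ≤ uu (kk K) n := fun n => uu_nonneg (kk K) hk n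
  have hqq1 : ∀ x, Pool.Agent.H98.CE.qq K ℓ x 0 ≤ 1 := fun x => min_le_left _ _
  have hqq0 : ∀ x, 0 ≤ Pool.Agent.H98.CE.qq K ℓ x 0 := fun x => le_min zero_le_one (hp0 x)
  have hqm : Measurable (fun x : ℕ → ℝ => Pool.Agent.H98.CE.qq K ℓ x 0) :=
    measurable_const.min hmeas
  have hqi : Integrable (fun x : ℕ → ℝ => Pool.Agent.H98.CE.qq K ℓ x 0) (iid ν) := by
    refine Integrable.of_bound hqm.aestronglyMeasurable 1 (ae_of_all _ fun x => ?_)
    rw [Real.norm_eq_abs, abs_of_nonneg (hqq0 x)]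
    exact hqq1 x
  have hup : ∫ x : ℕ → ℝ, Pool.Agent.H98.CE.qq K ℓ x 0 ∂(iid ν) ≤ 1 := by
    calc ∫ x : ℕ → ℝ, Pool.Agent.H98.CE.qq K ℓ x 0 ∂(iid ν) ≤ ∫ _ : ℕ → ℝ, (1 : ℝ) ∂(iid ν) :=
          integral_mono hqi (integrable_const _) hqq1
      _ = 1 := by simp
  refine ⟨?_, hup⟩
  obtain ⟨r, hr⟩ : ∃ r, r = Real.sqrt ϑ := ⟨_, rfl⟩
  have hr0 : 0 < r := hr ▸ Real.sqrt_pos.mpr hϑ
  have hr2 : r * r = ϑ := by rw [hr]; exact Real.mul_self_sqrt hϑ.le
  -- the weights
  obtain ⟨w, hw⟩ : ∃ w : ℕ → ℕ → ℝ, w = fun y z => uu (kk K) (z - y) / VV K ℓ := ⟨_, rfl⟩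
  have hw0 : ∀ y z, 0 ≤ w y z := fun y z => by
    rw [hw]
    exact div_nonneg (hu _) hV.le
  have hw1 : ∑ y ∈ Finset.range ℓ, ∑ z ∈ Finset.Ico y ℓ, w y z = 1 := by
    rw [hw]
    simp only [← Finset.sum_div]
    exact div_self hV.ne'
  obtain ⟨g, hg⟩ : ∃ g : (ℕ → ℝ) → ℕ → ℕ → ℝ, g = fun x y z =>
    1 - r - (Real.exp (1 / 2 * H x y z) + Real.exp ((-1 / 2) * H x y z) - 2) / (4 * r) :=
      ⟨_, rfl⟩
  have hg1 : ∀ x y z, g x y z ≤ 1 ∧ g x y z ≤ Real.exp (H x y z / 2) := by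
    intro x y z
    have e := slm_f_le hr0 (1 / 2 * H x y z)
    rw [show -(1 / 2 * H x y z) = (-1 / 2) * H x y z by ring] at e
    rw [hg]
    simp only
    rw [show H x y z / 2 = 1 / 2 * H x y z by ring]
    exact e
  have hlow : ∀ x, ∑ y ∈ Finset.range ℓ, ∑ z ∈ Finset.Ico y ℓ, w y z * g x y z ≤
      Pool.Agent.H98.CE.qq K ℓ x 0 := by
    intro x
    refine le_min ?_ ?_
    · rw [← hw1]
      refine Finset.sum_le_sum fun y _ => Finset.sum_le_sum fun z _ => ?_
      have := mul_le_mul_of_nonneg_left (hg1 x y z).1 (hw0 y z)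
      rwa [mul_one] at this
    · have e1 : ∑ y ∈ Finset.range ℓ, ∑ z ∈ Finset.Ico y ℓ, w y z * g x y z ≤
          ∑ y ∈ Finset.range ℓ, ∑ z ∈ Finset.Ico y ℓ, pz K x (z - y) y / VV K ℓ := by
        refine Finset.sum_le_sum fun y _ => Finset.sum_le_sum fun z hz => ?_
        rw [Finset.mem_Ico] at hz
        refine (mul_le_mul_of_nonneg_left (hg1 x y z).2 (hw0 y z)).trans ?_
        rw [hw]
        simp only
        rw [div_mul_eq_mul_div]
        refine div_le_div_of_nonneg_right ?_ hV.le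
        have := hPZU K x (z - y) y
        rwa [Nat.add_sub_cancel' hz.1] at this
      refine e1.trans (le_of_eq ?_)
      unfold pc
      simp only [← Finset.sum_div]
      congr 1
      rw [zero_mul, zero_add, one_mul, ← Finset.range_eq_Ico]
      refine Finset.sum_congr rfl fun y hy => ?_
      rw [Finset.mem_range] at hy
      rw [← Finset.sum_filter]
      refine Finset.sum_congr ?_ fun _ _ => rfl
      ext z
      simp only [Finset.mem_Ico, Finset.mem_filter, Finset.mem_range]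
      omega
  have hgi : ∀ y z, y ≤ z → Integrable (fun x => g x y z) (iid ν) ∧
      ∫ x, g x y z ∂(iid ν) = 1 - r - (Mo ν (1 / 2) ^ (z - y) + Mo ν (-1 / 2) ^ (z - y) - 2) /
        (4 * r) := by
    intro y z hyz
    obtain ⟨i1, v1⟩ := slm_exp hPRE ν hexp (1 / 2) hyz
    obtain ⟨i2, v2⟩ := slm_exp hPRE ν hexp (-1 / 2) hyz
    have i12 : Integrable (fun x : ℕ → ℝ => Real.exp (1 / 2 * H x y z) +
        Real.exp ((-1 / 2) * H x y z)) (iid ν) := i1.add i2
    have i3 : Integrable (fun x : ℕ → ℝ => Real.exp (1 / 2 * H x y z) +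
        Real.exp ((-1 / 2) * H x y z) - 2) (iid ν) := i12.sub (integrable_const _)
    have i4 : Integrable (fun x : ℕ → ℝ => (Real.exp (1 / 2 * H x y z) +
        Real.exp ((-1 / 2) * H x y z) - 2) / (4 * r)) (iid ν) := i3.div_const _
    have i5 : Integrable (fun _ : ℕ → ℝ => 1 - r) (iid ν) := integrable_const _
    rw [hg]
    refine ⟨i5.sub i4, ?_⟩
    simp only
    rw [integral_sub i5 i4, integral_div, integral_sub i12 (integrable_const _),
      integral_add i1 i2, v1, v2]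
    simp
  have hterm : ∀ y z, z ∈ Finset.Ico y ℓ → Integrable (fun x => w y z * g x y z) (iid ν) := by
    intro y z hz
    rw [Finset.mem_Ico] at hz
    exact (hgi y z hz.1).1.const_mul _
  have hint : Integrable (fun x => ∑ y ∈ Finset.range ℓ, ∑ z ∈ Finset.Ico y ℓ, w y z * g x y z)
      (iid ν) :=
    integrable_finsetSum _ fun y _ => integrable_finsetSum _ fun z hz => hterm y z hz
  have hval : ∫ x, ∑ y ∈ Finset.range ℓ, ∑ z ∈ Finset.Ico y ℓ, w y z * g x y z ∂(iid ν) =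
      ∑ y ∈ Finset.range ℓ, ∑ z ∈ Finset.Ico y ℓ, w y z * (1 - r -
        (Mo ν (1 / 2) ^ (z - y) + Mo ν (-1 / 2) ^ (z - y) - 2) / (4 * r)) := by
    rw [integral_finsetSum _ fun y _ => integrable_finsetSum _ fun z hz => hterm y z hz]
    refine Finset.sum_congr rfl fun y _ => ?_
    rw [integral_finsetSum _ fun z hz => hterm y z hz]
    refine Finset.sum_congr rfl fun z hz => ?_
    rw [Finset.mem_Ico] at hz
    rw [integral_const_mul, (hgi y z hz.1).2]
  have hbig : 1 - 2 * r ≤ ∑ y ∈ Finset.range ℓ, ∑ z ∈ Finset.Ico y ℓ, w y z * (1 - r -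
        (Mo ν (1 / 2) ^ (z - y) + Mo ν (-1 / 2) ^ (z - y) - 2) / (4 * r)) := by
    have e0 : (1 - 2 * r) = ∑ y ∈ Finset.range ℓ, ∑ z ∈ Finset.Ico y ℓ, w y z * (1 - 2 * r) := by
      simp only [← Finset.sum_mul]
      rw [hw1, one_mul]
    rw [e0]
    refine Finset.sum_le_sum fun y _ => Finset.sum_le_sum fun z hz => ?_
    rw [Finset.mem_Ico] at hz
    refine mul_le_mul_of_nonneg_left ?_ (hw0 y z)
    have f1 : Mo ν (1 / 2) ^ (z - y) ≤ 1 := pow_le_one₀ (slm_Mo_nonneg ν _) hM1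
    have f2 : Mo ν (-1 / 2) ^ (z - y) ≤ Real.exp (2 * ϑ) := by
      rcases le_total (Mo ν (-1 / 2)) 1 with h1 | h1
      · refine (pow_le_one₀ (slm_Mo_nonneg ν _) h1).trans ?_
        exact Real.one_le_exp (by positivity)
      · exact (pow_le_pow_right₀ h1 (by omega)).trans hM2
    have f3 : Real.exp (2 * ϑ) - 1 ≤ 2 * (2 * ϑ) := by
      have e1 := Real.abs_exp_sub_one_le (x := 2 * ϑ) (by
        rw [abs_of_nonneg (by positivity)]
        linarith)
      rw [abs_of_nonneg (by positivity : (0 : ℝ) ≤ 2 * ϑ)] at e1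
      exact (le_abs_self _).trans e1
    have f4 : (Mo ν (1 / 2) ^ (z - y) + Mo ν (-1 / 2) ^ (z - y) - 2) / (4 * r) ≤ r := by
      rw [div_le_iff₀ (by positivity)]
      nlinarith
    linarith
  rw [← hr]
  refine hbig.trans ?_
  rw [← hval]
  exact integral_mono hint hqi hlow

end Pool.Agent.H11.CEL
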