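import Pool.Agent.H98.CE.Targets

/-!
# MP_65efe8_pr, row ST1: the functional of the next level, deterministic properties
-/

set_option autoImplicit false

open MeasureTheory ProbabilityTheory Filter Topology Pool.Agent.H95 Pool.Agent.H95.Cop
open Pool.Agent.H98.CE

namespace Pool.Agent.H11.CEL

theorem st1_meas_cw {X : Type} [MeasurableSpace X] (F : ℕ → X → ℝ)
    (hF : ∀ k, Measurable (F k)) (r : ℕ → ℝ) :
    ∀ L : List ℕ, Measurable (fun x => cw (fun i => F i x) r L)
  | [] => by simp only [cw]; exact measurable_const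
  | [i] => by simp only [cw]; exact hF i
  | i :: j :: L => by
    simp only [cw]
    exact ((hF i).mul_const _).mul (st1_meas_cw F hF r (j :: L))

theorem st1_meas_sum {X : Type} [MeasurableSpace X] (F : ℕ → X → ℕ)
    (hF : ∀ k, Measurable (F k)) (L : List ℕ) :
    Measurable (fun x => (L.map fun i => F i x).sum) := by
  induction L with
  | nil => simp only [List.map_nil, List.sum_nil]; exact measurable_const
  | cons i L ih =>
    simp only [List.map_cons, List.sum_cons]
    exact (hF i).add ih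

theorem st1_cw_congr (f f' : ℕ → ℝ) (r : ℕ → ℝ) :
    ∀ L : List ℕ, (∀ k ∈ L, f k = f' k) → cw f r L = cw f' r L
  | [], _ => rfl
  | [i], h => by simp only [cw]; exact h i (by simp)
  | i :: j :: L, h => by
    simp only [cw]
    rw [h i (by simp), st1_cw_congr f f' r (j :: L) fun k hk => h k (List.mem_cons_of_mem _ hk)]

theorem st1_sum_le (g : ℕ → ℕ) (J : ℕ) (hg : ∀ k, g k ≤ J) (L : List ℕ) :
    (L.map g).sum ≤ L.length * J := by
  induction L with
  | nil => simp
  | cons i L ih =>
    rw [List.map_cons, List.sum_cons, List.length_cons]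
    have := hg i
    have e : (L.length + 1) * J = L.length * J + J := by ring
    omega

theorem pf_ST1 (hGLF : T_GLF) (hGLU : T_GLU) (hHLP : T_HLP) (hCHN : T_CHN) (hCLO : T_CLO) :
    T_ST1 := by
  intro K ν _ ℓ α β κ n J t C E w lab hℓ hα hβ hκ hHK hn hOb thr M G A ms hthr hms hAM hexp
  have hmem : ∀ L, L ∈ GLs G A ms → ∃ i m, m < ms ∧ L ∈ gl G m i ∧ i + m * (G + 1) < M := by
    intro L hL
    obtain ⟨i, hi, m, hm, h⟩ := ((hGLU G A ms (fun _ => 0)).1 L).mp hL
    refine ⟨i, m, hm, h, ?_⟩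
    have e1 : m * (G + 1) ≤ (ms - 1) * (G + 1) := Nat.mul_le_mul_right _ (by omega)
    omega
  have hlabm : ∀ k, Measurable (fun x : ℕ → ℝ => lab (shift (k * (n * ℓ)) x)) := fun k =>
    hOb.ml.comp (measurable_shift _)
  have hwm : ∀ k, Measurable (fun x : ℕ → ℝ => w (shift (k * (n * ℓ)) x)) := fun k =>
    hOb.mw.comp (measurable_shift _)
  have hset : ∀ L ∈ GLs G A ms, MeasurableSet {x : ℕ → ℝ | hb n ℓ thr M lab x = L} := by
    intro L hL
    obtain ⟨i, m, hm, h, hM⟩ := hmem L hL
    have e1 : {x : ℕ → ℝ | hb n ℓ thr M lab x = L} = {x : ℕ → ℝ | ∀ k < M, (k ∈ L.toFinset ↔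
        thr ≤ lab (shift (k * (n * ℓ)) x))} := by
      ext x
      exact (hHLP G m i L h).1 n ℓ thr M lab x hM
    rw [e1, measurableSet_setOfPred]
    refine Measurable.forall fun k => Measurable.imp measurable_const ?_
    refine Measurable.iff measurable_const ?_
    rw [← measurableSet_setOfPred]
    exact measurableSet_le measurable_const (hlabm k)
  have hnw : ∀ x, nw α κ n ℓ thr M G A ms w lab x = ∑ L ∈ GLs G A ms,
      if hb n ℓ thr M lab x = L then
        cw (fun i => w (shift (i * (n * ℓ)) x)) (fun g => lk α κ (g * n)) L else 0 := by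
    intro x
    rw [Finset.sum_ite_eq]
    rfl
  have hnl : ∀ x, nl n ℓ thr M G A ms lab x = ∑ L ∈ GLs G A ms,
      if hb n ℓ thr M lab x = L then
        (L.map fun i => lab (shift (i * (n * ℓ)) x)).sum - (L.length - 1) * (thr - 1)
          else 0 := by
    intro x
    rw [Finset.sum_ite_eq]
    rfl
  have hlabd : ∀ x x' : ℕ → ℝ, (∀ i < M * n * ℓ, x i = x' i) → ∀ k < M,
      lab (shift (k * (n * ℓ)) x) = lab (shift (k * (n * ℓ)) x') ∧
      w (shift (k * (n * ℓ)) x) = w (shift (k * (n * ℓ)) x') := by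
    intro x x' hx k hk
    have e1 : ∀ i < n * ℓ, shift (k * (n * ℓ)) x i = shift (k * (n * ℓ)) x' i := by
      intro i hi
      rw [shift_apply, shift_apply]
      refine hx _ ?_
      have e2 : (k + 1) * (n * ℓ) ≤ M * (n * ℓ) := Nat.mul_le_mul_right _ hk
      have e3 : (k + 1) * (n * ℓ) = k * (n * ℓ) + n * ℓ := by ring
      rw [mul_assoc]
      omega
    exact ⟨hOb.dl _ _ e1, hOb.dw _ _ e1⟩
  have hhb : ∀ x x' : ℕ → ℝ, (∀ i < M * n * ℓ, x i = x' i) →
      hb n ℓ thr M lab x = hb n ℓ thr M lab x' := by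
    intro x x' hx
    unfold hb
    refine List.filter_congr fun k hk => ?_
    rw [List.mem_range] at hk
    rw [(hlabd x x' hx k hk).1]
  have hlt : ∀ x, ∀ k ∈ hb n ℓ thr M lab x, k < M ∧ thr ≤ lab (shift (k * (n * ℓ)) x) := by
    intro x k hk
    unfold hb at hk
    rw [List.mem_filter, List.mem_range] at hk
    exact ⟨hk.1, of_decide_eq_true hk.2⟩
  have hf : ∀ x : ℕ → ℝ, ∀ k, 0 ≤ w (shift (k * (n * ℓ)) x) ∧
      w (shift (k * (n * ℓ)) x) ≤ WB K ℓ n (shift (k * (n * ℓ)) x) := fun x k =>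
    ⟨hOb.nonneg _, hOb.le _⟩
  have hWB : ∀ x, 0 ≤ WB K ℓ (M * n) x := by
    intro x
    rcases Nat.eq_zero_or_pos M with h0 | h0
    · subst h0
      unfold WB PX
      simp
    · have h1 := hCHN K ℓ α κ hℓ hα hκ hHK n M G 0 0 [0] hn (by simp [gl]) (by omega) x
        (fun k => w (shift (k * (n * ℓ)) x)) (hf x)
      exact h1.1.trans h1.2
  have hlow : ∀ x, hb n ℓ thr M lab x ∈ GLs G A ms → thr ≤ nl n ℓ thr M G A ms lab x ∧
      Real.exp (β * nl n ℓ thr M G A ms lab x) ≤ nw α κ n ℓ thr M G A ms w lab x := by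
    intro x hx
    obtain ⟨i, m, hm, h, hM⟩ := hmem _ hx
    have h1 := hCLO G m i _ h (fun k => w (shift (k * (n * ℓ)) x)) (fun g => lk α κ (g * n))
      (fun k => lab (shift (k * (n * ℓ)) x)) β thr hthr hβ ?_ ?_
    · unfold nl nw
      rw [if_pos hx, if_pos hx]
      refine ⟨?_, h1.2⟩
      have := h1.1
      omega
    · intro k hk
      have h2 := (hlt x k hk).2
      exact ⟨h2, hOb.low _ (by omega)⟩
    · intro d hd1 hd2
      refine hexp.trans ?_
      unfold lk
      refine mul_le_mul_of_nonneg_left ?_ hκ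
      refine Real.rpow_le_rpow_of_nonpos ?_ ?_ (by linarith)
      · exact_mod_cast Nat.mul_pos (by omega : 0 < d) hn
      · exact_mod_cast Nat.mul_le_mul_right n hd2
  refine ⟨?_, ?_, ?_, ?_, ?_⟩
  · have e : nw α κ n ℓ thr M G A ms w lab = fun x => ∑ L ∈ GLs G A ms,
      if hb n ℓ thr M lab x = L then
        cw (fun i => w (shift (i * (n * ℓ)) x)) (fun g => lk α κ (g * n)) L else 0 := funext hnw
    rw [e]
    refine Finset.measurable_fun_sum _ fun L hL => ?_
    exact Measurable.ite (hset L hL) (st1_meas_cw _ hwm _ L) measurable_const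
  · have e : nl n ℓ thr M G A ms lab = fun x => ∑ L ∈ GLs G A ms,
      if hb n ℓ thr M lab x = L then
        (L.map fun i => lab (shift (i * (n * ℓ)) x)).sum - (L.length - 1) * (thr - 1)
          else 0 := funext hnl
    rw [e]
    refine Finset.measurable_fun_sum _ fun L hL => ?_
    refine Measurable.ite (hset L hL) ?_ measurable_const
    exact (measurable_from_nat (f := fun s => s - (L.length - 1) * (thr - 1))).comp
      (st1_meas_sum _ hlabm L)
  · intro x x' hx
    unfold nw
    rw [hhb x x' hx]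
    by_cases h : hb n ℓ thr M lab x' ∈ GLs G A ms
    · rw [if_pos h, if_pos h]
      refine st1_cw_congr _ _ _ _ fun k hk => ?_
      exact (hlabd x x' hx k (hlt x' k hk).1).2
    · rw [if_neg h, if_neg h]
  · intro x x' hx
    unfold nl
    rw [hhb x x' hx]
    have e : ((hb n ℓ thr M lab x').map fun i => lab (shift (i * (n * ℓ)) x)) =
        (hb n ℓ thr M lab x').map fun i => lab (shift (i * (n * ℓ)) x') :=
      List.map_congr_left fun k hk => (hlabd x x' hx k (hlt x' k hk).1).1
    rw [e]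
  · intro x
    by_cases h : hb n ℓ thr M lab x ∈ GLs G A ms
    · obtain ⟨h1, h2⟩ := hlow x h
      obtain ⟨i, m, hm, hL, hM⟩ := hmem _ h
      have h3 := hCHN K ℓ α κ hℓ hα hκ hHK n M G m i _ hn hL hM x
        (fun k => w (shift (k * (n * ℓ)) x)) (hf x)
      have h4 : nw α κ n ℓ thr M G A ms w lab x = cw (fun i => w (shift (i * (n * ℓ)) x))
          (fun g => lk α κ (g * n)) (hb n ℓ thr M lab x) := if_pos h
      refine ⟨h4 ▸ h3.1, h4 ▸ h3.2, fun h0 => by omega, fun _ => h2, ?_⟩
      unfold nl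
      rw [if_pos h]
      have h5 := st1_sum_le (fun k => lab (shift (k * (n * ℓ)) x)) J (fun k => hOb.labJ _)
        (hb n ℓ thr M lab x)
      have h6 := ((hGLF G m i).2 _ hL).2.1
      rw [h6] at h5
      have h7 : (m + 1) * J ≤ ms * J := Nat.mul_le_mul_right J hm
      omega
    · have h4 : nw α κ n ℓ thr M G A ms w lab x = 0 := if_neg h
      have h5 : nl n ℓ thr M G A ms lab x = 0 := if_neg h
      rw [h4, h5]
      exact ⟨le_rfl, hWB x, fun _ => rfl, fun h => absurd rfl h, Nat.zero_le _⟩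

end Pool.Agent.H11.CEL
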