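import Pool.Agent.H98.CE.Targets

/-!
# MP_65efe8_pr, row ST3: the moments of the next level
-/

set_option autoImplicit false

open MeasureTheory ProbabilityTheory Filter Topology Pool.Agent.H95 Pool.Agent.H95.Cop
open Pool.Agent.H98.CE

namespace Pool.Agent.H11.CEL

theorem st3_mem (hGLU : T_GLU) {G A ms M : ℕ} (hAM : A + (ms - 1) * (G + 1) ≤ M) (L : List ℕ)
    (hL : L ∈ GLs G A ms) : ∃ i m, i < A ∧ m < ms ∧ L ∈ gl G m i ∧ i + m * (G + 1) < M := by
  obtain ⟨i, hi, m, hm, h⟩ := ((hGLU G A ms (fun _ => 0)).1 L).mp hL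
  refine ⟨i, m, hi, hm, h, ?_⟩
  have e1 : m * (G + 1) ≤ (ms - 1) * (G + 1) := Nat.mul_le_mul_right _ (by omega)
  omega

open Classical in
theorem st3_pow (hGLU : T_GLU) (hHLP : T_HLP) {α κ p : ℝ} (hκ : 0 ≤ κ) (hp : 0 < p)
    {n ℓ thr M G A ms : ℕ} (hAM : A + (ms - 1) * (G + 1) ≤ M) (w : (ℕ → ℝ) → ℝ)
    (lab : (ℕ → ℝ) → ℕ) (hw : ∀ x, 0 ≤ w x) (x : ℕ → ℝ) :
    nw α κ n ℓ thr M G A ms w lab x ^ p = ∑ L ∈ GLs G A ms,
      lp (fun g => lk α κ (g * n)) L ^ p *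
        (if ∀ k < M, (k ∈ L.toFinset ↔ thr ≤ lab (shift (k * (n * ℓ)) x)) then
          ∏ k ∈ L.toFinset, (w (shift (k * (n * ℓ)) x) ^ p) else 0) := by
  have hr0 : ∀ d : ℕ, 0 ≤ lk α κ (d * n) := fun d =>
    mul_nonneg hκ (Real.rpow_nonneg (Nat.cast_nonneg _) _)
  have h2 : ∀ L ∈ GLs G A ms, lp (fun g => lk α κ (g * n)) L ^ p *
        (if ∀ k < M, (k ∈ L.toFinset ↔ thr ≤ lab (shift (k * (n * ℓ)) x)) then
          ∏ k ∈ L.toFinset, (w (shift (k * (n * ℓ)) x) ^ p) else 0) =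
      if hb n ℓ thr M lab x = L then
        (cw (fun i => w (shift (i * (n * ℓ)) x)) (fun g => lk α κ (g * n)) L) ^ p else 0 := by
    intro L hL
    obtain ⟨i, m, hi, hm, h, hM⟩ := st3_mem hGLU hAM L hL
    have h1 := (hHLP G m i L h).1 n ℓ thr M lab x hM
    by_cases hx : hb n ℓ thr M lab x = L
    · rw [if_pos (h1.mp hx), if_pos hx, (hHLP G m i L h).2.1,
        Real.mul_rpow ((hHLP G m i L h).2.2.2 _ hr0).1 (Finset.prod_nonneg fun k _ => hw _),
        Real.finsetProd_rpow _ _ fun k _ => hw _]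
    · rw [if_neg (fun hc => hx (h1.mpr hc)), if_neg hx, mul_zero]
  rw [Finset.sum_congr rfl h2, Finset.sum_ite_eq]
  unfold nw
  by_cases hx : hb n ℓ thr M lab x ∈ GLs G A ms
  · rw [if_pos hx, if_pos hx]
  · rw [if_neg hx, if_neg hx, Real.zero_rpow hp.ne']

open Classical in
theorem st3_int (hGLF : T_GLF) (hGLU : T_GLU) (hHLP : T_HLP) (hLIT : T_LIT) {K : PMF ℕ} (ν : Measure ℝ)
    [IsProbabilityMeasure ν] {α β κ p C E : ℝ} {t : ℕ → ℝ} {J : ℕ} (hκ : 0 ≤ κ) (hp : 0 < p)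
    {n ℓ thr M G A ms : ℕ} (hAM : A + (ms - 1) * (G + 1) ≤ M) (w : (ℕ → ℝ) → ℝ)
    (lab : (ℕ → ℝ) → ℕ) (hOb : Ob K ν ℓ α β n J t C E w lab)
    (hi : Integrable (fun x => w x ^ p) (iid ν)) :
    Integrable (fun x => nw α κ n ℓ thr M G A ms w lab x ^ p) (iid ν) ∧
    ∫ x, nw α κ n ℓ thr M G A ms w lab x ^ p ∂(iid ν) ≤ ∑ L ∈ GLs G A ms,
      lp (fun g => lk α κ (g * n)) L ^ p * (∫ x, w x ^ p ∂(iid ν)) ^ L.toFinset.card := by
  have hr0 : ∀ d : ℕ, 0 ≤ lk α κ (d * n) := fun d =>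
    mul_nonneg hκ (Real.rpow_nonneg (Nat.cast_nonneg _) _)
  have hf0 : ∀ x, 0 ≤ w x ^ p := fun x => Real.rpow_nonneg (hOb.nonneg x) p
  have hdep : DepLt (n * ℓ) (fun x => w x ^ p) := fun x x' hx => by
    have := hOb.dw x x' hx
    simp only [this]
  have hlit : ∀ L ∈ GLs G A ms, Integrable (fun x : ℕ → ℝ =>
      if ∀ k < M, (k ∈ L.toFinset ↔ thr ≤ lab (shift (k * (n * ℓ)) x)) then
        ∏ k ∈ L.toFinset, (w (shift (k * (n * ℓ)) x) ^ p) else 0) (iid ν) ∧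
      ∫ x : ℕ → ℝ, (if ∀ k < M, (k ∈ L.toFinset ↔ thr ≤ lab (shift (k * (n * ℓ)) x)) then
        ∏ k ∈ L.toFinset, (w (shift (k * (n * ℓ)) x) ^ p) else 0) ∂(iid ν) ≤
        (∫ x, w x ^ p ∂(iid ν)) ^ L.toFinset.card := by
    intro L hL
    obtain ⟨i, m, hi', hm, h, hM⟩ := st3_mem hGLU hAM L hL
    have hsub : L.toFinset ⊆ Finset.range M := by
      intro k hk
      rw [Finset.mem_range]
      have := (((hGLF G m i).2 L h).2.2.2.2 k (List.mem_toFinset.mp hk)).2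
      omega
    obtain ⟨h1, h2⟩ := hLIT ν (n * ℓ) thr lab (fun x => w x ^ p) hOb.ml hOb.dl
      (hOb.mw.pow_const p) hdep hf0 hi M L.toFinset hsub
    refine ⟨h1, h2.le.trans ?_⟩
    have h3 : 0 ≤ ∫ x : ℕ → ℝ, (if thr ≤ lab x then w x ^ p else 0) ∂(iid ν) :=
      integral_nonneg fun x => by
        change 0 ≤ if thr ≤ lab x then w x ^ p else 0
        split_ifs
        · exact hf0 x
        · exact le_rfl
    have h4 : ∫ x : ℕ → ℝ, (if thr ≤ lab x then w x ^ p else 0) ∂(iid ν) ≤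
        ∫ x, w x ^ p ∂(iid ν) := by
      refine integral_mono_of_nonneg (ae_of_all _ fun x => ?_) hi (ae_of_all _ fun x => ?_)
      · change 0 ≤ if thr ≤ lab x then w x ^ p else 0
        split_ifs
        · exact hf0 x
        · exact le_rfl
      · change (if thr ≤ lab x then w x ^ p else 0) ≤ w x ^ p
        split_ifs
        · exact le_rfl
        · exact hf0 x
    calc _ ≤ (∫ x, w x ^ p ∂(iid ν)) ^ L.toFinset.card * 1 :=
          mul_le_mul (pow_le_pow_left₀ h3 h4 _) (pow_le_one₀ measureReal_nonneg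
            measureReal_le_one) (pow_nonneg measureReal_nonneg _)
            (pow_nonneg (h3.trans h4) _)
      _ = _ := mul_one _
  have hpw := fun x => st3_pow (α := α) (n := n) (ℓ := ℓ) (thr := thr) hGLU hHLP hκ hp hAM w lab
    hOb.nonneg x
  simp only [hpw]
  refine ⟨integrable_finsetSum _ fun L hL => (hlit L hL).1.const_mul _, ?_⟩
  rw [integral_finsetSum _ fun L hL => (hlit L hL).1.const_mul _]
  refine Finset.sum_le_sum fun L hL => ?_
  obtain ⟨i, m, hi', hm, h, hM⟩ := st3_mem hGLU hAM L hL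
  rw [integral_const_mul]
  exact mul_le_mul_of_nonneg_left (hlit L hL).2
    (Real.rpow_nonneg ((hHLP G m i L h).2.2.2 _ hr0).1 p)

theorem pf_ST3 (hGLF : T_GLF) (hGLU : T_GLU) (hHLP : T_HLP) (hCNT : T_CNT) (hLIT : T_LIT) :
    T_ST3 := by
  intro K ν _ ℓ α β κ n J t C E w lab hℓ hα hκ hκ1 hn hC hE hOb thr M G A ms hthr hms hG hAM R
    hR hRκ
  have hα1 : (0 : ℝ) < 1 + α := by linarith
  have hr0 : ∀ d : ℕ, 0 ≤ lk α κ (d * n) := fun d =>
    mul_nonneg hκ.le (Real.rpow_nonneg (Nat.cast_nonneg _) _)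
  have hn0 : (0 : ℝ) < n := by exact_mod_cast hn
  obtain ⟨i1, v1⟩ := st3_int (thr := thr) hGLF hGLU hHLP hLIT ν hκ.le
    (p := 1 / (1 + α)) (by positivity) hAM w lab hOb hOb.i1
  obtain ⟨i2, v2⟩ := st3_int (thr := thr) hGLF hGLU hHLP hLIT ν hκ.le
    (p := 2 / (1 + α)) (by positivity) hAM w lab hOb hOb.i2
  have hAM' : A ≤ M := by omega
  have hAMr : (A : ℝ) ≤ M := by exact_mod_cast hAM'
  refine ⟨i1, i2, v1.trans ?_, v2.trans ?_⟩
  · obtain ⟨I, hI⟩ : ∃ I, I = ∫ x, w x ^ (1 / (1 + α)) ∂(iid ν) := ⟨_, rfl⟩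
    have hI0 : 0 ≤ I := hI ▸ integral_nonneg fun x => Real.rpow_nonneg (hOb.nonneg x) _
    have hI1 : I ≤ n * C := hI ▸ hOb.u1
    rw [← hI, (hGLU G A ms _).2]
    obtain ⟨Hs, hHs⟩ : ∃ Hs, Hs = ∑ g ∈ Finset.Ico 2 (G + 2), 1 / ((g : ℝ) + 1) := ⟨_, rfl⟩
    have hHs0 : 0 ≤ Hs := hHs ▸ Finset.sum_nonneg fun g _ => by positivity
    have hq0 : 0 ≤ κ ^ (1 / (1 + α)) * Hs := mul_nonneg (Real.rpow_nonneg hκ.le _) hHs0
    rw [← hHs] at hRκ
    have hterm : ∀ i ∈ Finset.range A, ∀ m ∈ Finset.range ms, ∑ L ∈ gl G m i,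
        lp (fun g => lk α κ (g * n)) L ^ (1 / (1 + α)) * I ^ L.toFinset.card ≤
        n * (C * R) ^ ms := by
      intro i _ m hm
      rw [Finset.mem_range] at hm
      have e1 : ∑ L ∈ gl G m i,
          lp (fun g => lk α κ (g * n)) L ^ (1 / (1 + α)) * I ^ L.toFinset.card =
          (κ ^ (1 / (1 + α)) / n * Hs) ^ m * I ^ (m + 1) := by
        rw [hHs, ← hCNT α κ n G m i hα hκ hn, Finset.sum_mul]
        refine Finset.sum_congr rfl fun L hL => ?_
        rw [((hGLF G m i).2 L hL).2.2.2.1]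
      rw [e1]
      have e2 : (κ ^ (1 / (1 + α)) / n * Hs) ^ m * I ^ (m + 1) ≤
          (κ ^ (1 / (1 + α)) / n * Hs) ^ m * (n * C) ^ (m + 1) := by
        refine mul_le_mul_of_nonneg_left (pow_le_pow_left₀ hI0 hI1 _) (pow_nonneg ?_ _)
        exact mul_nonneg (div_nonneg (Real.rpow_nonneg hκ.le _) hn0.le) hHs0
      refine e2.trans ?_
      have e3 : (κ ^ (1 / (1 + α)) / n * Hs) ^ m * (n * C) ^ (m + 1) =
          n * (C * (C * (κ ^ (1 / (1 + α)) * Hs)) ^ m) := by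
        have e4 : κ ^ (1 / (1 + α)) / n * Hs * (n * C) = C * (κ ^ (1 / (1 + α)) * Hs) := by
          field_simp
        rw [pow_succ, ← mul_assoc, ← mul_pow, e4]
        ring
      rw [e3]
      refine mul_le_mul_of_nonneg_left ?_ hn0.le
      have e5 : (C * (κ ^ (1 / (1 + α)) * Hs)) ^ m ≤ (C * R) ^ m :=
        pow_le_pow_left₀ (by positivity) (mul_le_mul_of_nonneg_left hRκ (by linarith)) _
      have e6 : 1 ≤ C * R := by nlinarith
      calc C * (C * (κ ^ (1 / (1 + α)) * Hs)) ^ m ≤ (C * R) * (C * R) ^ m := by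
            refine mul_le_mul (by nlinarith) e5 (by positivity) (by linarith)
        _ = (C * R) ^ (m + 1) := by ring
        _ ≤ (C * R) ^ ms := pow_le_pow_right₀ e6 hm
    calc _ ≤ ∑ i ∈ Finset.range A, ∑ m ∈ Finset.range ms, (n : ℝ) * (C * R) ^ ms :=
          Finset.sum_le_sum fun i hi => Finset.sum_le_sum fun m hm => hterm i hi m hm
      _ = (A : ℝ) * (ms * (n * (C * R) ^ ms)) := by
          simp only [Finset.sum_const, Finset.card_range, nsmul_eq_mul]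
      _ ≤ (M : ℝ) * (ms * (n * (C * R) ^ ms)) := by
          refine mul_le_mul_of_nonneg_right hAMr ?_
          have : 0 ≤ C * R := by nlinarith
          positivity
      _ = ((M * n : ℕ) : ℝ) * (ms * (C * R) ^ ms) := by
          push_cast
          ring
  · obtain ⟨I, hI⟩ : ∃ I, I = ∫ x, w x ^ (2 / (1 + α)) ∂(iid ν) := ⟨_, rfl⟩
    have hI0 : 0 ≤ I := hI ▸ integral_nonneg fun x => Real.rpow_nonneg (hOb.nonneg x) _
    have hI1 : I ≤ E := hI ▸ hOb.u2
    rw [← hI, (hGLU G A ms _).2]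
    have hr1 : ∀ d : ℕ, lk α κ (d * n) ≤ 1 := by
      intro d
      unfold lk
      have e1 : ((d * n : ℕ) : ℝ) ^ (-(1 + α)) ≤ 1 := by
        rcases Nat.eq_zero_or_pos (d * n) with h0 | h0
        · rw [h0, Nat.cast_zero, Real.zero_rpow (by linarith)]
          exact zero_le_one
        · exact Real.rpow_le_one_of_one_le_of_nonpos (by exact_mod_cast h0) (by linarith)
      have e2 : 0 ≤ ((d * n : ℕ) : ℝ) ^ (-(1 + α)) := Real.rpow_nonneg (Nat.cast_nonneg _) _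
      nlinarith
    have hterm : ∀ i ∈ Finset.range A, ∀ m ∈ Finset.range ms, ∑ L ∈ gl G m i,
        lp (fun g => lk α κ (g * n)) L ^ (2 / (1 + α)) * I ^ L.toFinset.card ≤
        (M : ℝ) ^ ms * E ^ ms := by
      intro i hi m hm
      rw [Finset.mem_range] at hi hm
      have e1 : ∀ L ∈ gl G m i, lp (fun g => lk α κ (g * n)) L ^ (2 / (1 + α)) *
          I ^ L.toFinset.card ≤ E ^ ms := by
        intro L hL
        obtain ⟨l0, l1⟩ := (hHLP G m i L hL).2.2.2 (fun g => lk α κ (g * n)) hr0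
        have l2 : lp (fun g => lk α κ (g * n)) L ^ (2 / (1 + α)) ≤ 1 :=
          Real.rpow_le_one l0 (l1 hr1) (by positivity)
        rw [((hGLF G m i).2 L hL).2.2.2.1]
        calc _ ≤ 1 * I ^ (m + 1) := mul_le_mul_of_nonneg_right l2 (pow_nonneg hI0 _)
          _ = I ^ (m + 1) := one_mul _
          _ ≤ E ^ (m + 1) := pow_le_pow_left₀ hI0 hI1 _
          _ ≤ E ^ ms := pow_le_pow_right₀ hE hm
      refine (Finset.sum_le_card_nsmul _ _ _ e1).trans ?_
      rw [(hGLF G m i).1, nsmul_eq_mul]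
      refine mul_le_mul_of_nonneg_right ?_ (by positivity)
      have hM1 : 1 ≤ M := by omega
      have e2 : G ^ m ≤ M ^ ms := by
        rcases Nat.eq_zero_or_pos m with h0 | h0
        · subst h0
          rw [pow_zero]
          exact Nat.one_le_pow _ _ hM1
        · have h1 : 1 * (G + 1) ≤ (ms - 1) * (G + 1) := Nat.mul_le_mul_right _ (by omega)
          have h2 : G ≤ M := by omega
          exact (Nat.pow_le_pow_left h2 m).trans (Nat.pow_le_pow_right hM1 hm.le)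
      exact_mod_cast e2
    calc _ ≤ ∑ i ∈ Finset.range A, ∑ m ∈ Finset.range ms, (M : ℝ) ^ ms * E ^ ms :=
          Finset.sum_le_sum fun i hi => Finset.sum_le_sum fun m hm => hterm i hi m hm
      _ = (A : ℝ) * (ms * ((M : ℝ) ^ ms * E ^ ms)) := by
          simp only [Finset.sum_const, Finset.card_range, nsmul_eq_mul]
      _ ≤ (M : ℝ) * (ms * ((M : ℝ) ^ ms * E ^ ms)) := by
          refine mul_le_mul_of_nonneg_right hAMr ?_
          positivity
      _ = ms * (M : ℝ) ^ (ms + 1) * E ^ ms := by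
          rw [pow_succ]
          ring

end Pool.Agent.H11.CEL
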